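import Pool.Agent.L7h63.AP.Turn

/-!
# Words with few turns

Let `A_M` be the Artin group of an arbitrary Coxeter matrix `M` on a finite set `S` (the value `0` of a
Coxeter matrix of Mathlib stands for infinity). The shuffle procedure `reduce M` puts a word in a
reduced form with respect to the relations `s t = t s` for `M s t = 2`. The theorem says that this
procedure decides whether a word represents `1`, for all words whose reduced form `w'` has few turns.
A syllable `s ^ ε`, `ε = ± 1`, of `w'` is a turn of `s` at `t` if there are syllables of `s` before and
after it, `t` occurs between it and the next one, and all the generators that occur between it and the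
previous one commute with `s` or are equal to `t`. For each pair `s ≠ t` with `3 ≤ M s t < ∞` the number
of turns of `s` at `t` and of `t` at `s` has to be at most `M s t - 3`.

For instance this holds if every generator occurs in at most two syllables (with arbitrary exponents),
or if for all `s`, `t` with `3 ≤ M s t < ∞` at most `M s t + 1` syllables of `w'` are syllables of `s`
or `t`, or if `w'` has no syllables of exponent `1` or `-1`.
-/

set_option autoImplicit false

namespace Pool.Agent.Results.MP_a1ec0a_al.FewTurns

open Pool.Agent.K7.H20.AW Pool.Agent.L7h63.AP

theorem result {S : Type*} [Finite S] [DecidableEq S] (M : CoxeterMatrix S) (w : List (S × ℤ))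
    (h : ∀ s t : S, s ≠ t → M s t ≠ 2 → M s t ≠ 0 →
      Set.ncard {i : ℕ | Turn M (reduce M w) s t i ∨ Turn M (reduce M w) t s i} + 3 ≤ M s t) :
    value M w = 1 ↔ reduce M w = [] := by
  classical
  have := Fintype.ofFinite S
  have hval : value M (reduce M w) = value M w := by
    have h1 : val M (reduce M w) = val M w := by
      have h2 := congrArg (qo (M := M)) (val_reduce (M := M) w)
      rwa [qo_val, qo_val] at h2
    rw [← ofArt_val (reduce M w), h1, ofArt_val]
  rw [← hval]
  constructor
  · intro h1
    by_contra h2
    exact turn_main (rd_reduce w) h2 h h1
  · intro h1
    rw [h1]
    rfl

end Pool.Agent.Results.MP_a1ec0a_al.FewTurns
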