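import Pool.Agent.L7h63.AP.Pos

/-!
# Words in which a generator occurs with one sign only

Let `A_M` be the Artin group of an arbitrary Coxeter matrix `M` on a finite set `S` (all labels are
allowed, the value `0` of a Coxeter matrix of Mathlib stands for infinity) and let `b ∈ S`. A word in
which `b` occurs, and in which all its exponents have the same sign, while the other generators occur
in any way, does not represent an element of the subgroup generated by the other generators; in
particular it does not represent `1`. So every word that represents `1` contains each of its
generators with both signs.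

The group acts on a free group through products of Dehn twists along a family of annuli (several
annuli for each generator); one more generator, joined to `b` by the label `3`, gives an arc that is
fixed by the generators other than `b` and that `b` moves to the right.
-/

set_option autoImplicit false

namespace Pool.Agent.Results.MP_a1ec0a_al.PositiveGenerator

open Pool.Agent.K7.H20.AW

theorem result {S : Type*} [Finite S] (M : CoxeterMatrix S) (b : S) (w : List (S × ℤ))
    (hb : ∃ p ∈ w, p.1 = b ∧ p.2 ≠ 0)
    (hs : (∀ p ∈ w, p.1 = b → 0 ≤ p.2) ∨ ∀ p ∈ w, p.1 = b → p.2 ≤ 0) :
    value M w ≠ 1 ∧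
      value M w ∉ Subgroup.closure {g : ArtinGroup M | ∃ t, t ≠ b ∧ g = PresentedGroup.of t} := by
  classical
  have := Fintype.ofFinite S
  have key : value M w ∉
      Subgroup.closure {g : ArtinGroup M | ∃ t, t ≠ b ∧ g = PresentedGroup.of t} := by
    rcases hs with hs | hs
    · apply Pool.Agent.L7h63.AP.pos_main M w hs
      obtain ⟨p, hp, h1, h2⟩ := hb
      exact ⟨p, hp, h1, lt_of_le_of_ne (hs p hp h1) h2.symm⟩
    · -- pass to the inverse word
      have hinv : ∀ u : List (S × ℤ),
          value M ((u.map fun p => (p.1, -p.2)).reverse) = (value M u)⁻¹ := by
        intro u
        unfold value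
        rw [List.prod_inv_reverse, List.map_reverse, List.map_map, List.map_map]
        congr 2
        apply List.map_congr_left
        intro p _
        simp
      intro hw
      have hw' := Subgroup.inv_mem _ hw
      rw [← hinv] at hw'
      refine Pool.Agent.L7h63.AP.pos_main M _ ?_ ?_ hw'
      · intro p hp h1
        rw [List.mem_reverse, List.mem_map] at hp
        obtain ⟨q, hq, rfl⟩ := hp
        have := hs q hq h1
        show 0 ≤ -q.2
        omega
      · obtain ⟨p, hp, h1, h2⟩ := hb
        refine ⟨(p.1, -p.2), ?_, h1, ?_⟩
        · rw [List.mem_reverse, List.mem_map]
          exact ⟨p, hp, rfl⟩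
        · have := hs p hp h1
          show 0 < -p.2
          omega
  refine ⟨fun h => key ?_, key⟩
  rw [h]
  exact Subgroup.one_mem _

end Pool.Agent.Results.MP_a1ec0a_al.PositiveGenerator
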