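import Pool.Agent.L7h63.AP.Fit

/-!
# The exact exponents in the Tits conjecture

Let `A_M` be the Artin group of an arbitrary Coxeter matrix `M` on a finite set `S` (the value `0` of a
Coxeter matrix of Mathlib stands for infinity). The shuffle procedure `reduce M` puts a word in a
reduced form with respect to the relations `s t = t s` for `M s t = 2`.

The first part says that it decides whether a word represents `1`, and whether it represents an element
of a standard parabolic subgroup, for all words whose reduced form `w'` has long syllables: if `t` or
`t⁻¹` is a syllable of `w'`, then the syllables `s ^ k` of `w'` have `|k| ≥ 4` if `M s t = 3`,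
`|k| ≥ 2` if `4 ≤ M s t < ∞`, and `|k| ≥ 2` if `M s t = 2` and some generator of `w'` has label `3`
with `s` and with `t`. There is no other condition; the exponents are arbitrary integers.

The second part says that these bounds are best possible: for positive integers `k s` the procedure is
correct for all words in the powers `s ^ k s`, and equivalently these powers generate a right-angled
Artin group (with the relations between `s ^ k s` and `t ^ k t` only for `M s t = 2`), if and only if
`k s * k t ≥ 4` for `M s t = 3`, `k s * k t ≥ 2` for `4 ≤ M s t < ∞` and `k t * k r ≥ 2` whenever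
`M s t = M s r = 3` and `M t r = 2` for some `s`. (The Tits conjecture is the case of `k s = 2` for
all `s`.)
-/

set_option autoImplicit false

namespace Pool.Agent.Results.MP_a1ec0a_al.SharpExponents

open Pool.Agent.K7.H20.AW Pool.Agent.L7h63.AP

theorem result {S : Type*} [Finite S] [DecidableEq S] (M : CoxeterMatrix S) :
    (∀ (w : List (S × ℤ)) (T : Set S), Long M (reduce M w) →
      (value M w ∈ Subgroup.closure {g : ArtinGroup M | ∃ t ∈ T, g = PresentedGroup.of t} ↔
        ∀ p ∈ reduce M w, p.1 ∈ T)) ∧
    ∀ k : S → ℕ, (∀ s, 1 ≤ k s) →
      ((∀ w : List (S × ℤ), (∀ p ∈ w, (k p.1 : ℤ) ∣ p.2) →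
        (value M w = 1 ↔ reduce M w = [])) ↔ Fits M k) ∧
      ∃ f : ArtinGroup (decouple M ∅) →* ArtinGroup M,
        (∀ s, f (PresentedGroup.of s) = PresentedGroup.of s ^ k s) ∧
        (Function.Injective f ↔ Fits M k) := by
  refine ⟨long_mem, fun k hk => ?_⟩
  obtain ⟨f, hf⟩ := pow_hom (M := M) k
  refine ⟨⟨fun h => not_inj hk hf (inj_of_proc hk hf h), proc_of_fits hk⟩, f, hf,
    not_inj hk hf, fun h => inj_of_proc hk hf (proc_of_fits hk h)⟩

end Pool.Agent.Results.MP_a1ec0a_al.SharpExponents
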