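import Pool.Agent.L7h63.AP.Sq

/-!
# Words without long zigzags

Let `A_M` be the Artin group of an arbitrary Coxeter matrix `M` on a finite set `S` (the value `0` of a
Coxeter matrix of Mathlib stands for infinity). The shuffle procedure `reduce M` puts a word in a
reduced form with respect to the relations `s t = t s` for `M s t = 2`. The theorem says that this
procedure decides the word problem, and the membership in the subgroups generated by sets of
generators, for all words whose reduced form has no long zigzags: for each pair `s ≠ t` with
`3 ≤ M s t < ∞`, the zigzags `x₀, …, xₙ₊₁` of the reduced word in `s` and `t` (alternating sequences of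
syllables, each one linked to the next one up to commutations, with inner syllables of exponent
`1` or `-1`) satisfy `2 n + 3 ≤ M s t`, or the reduced word has less than `M s t` syllables of `s` and
`t`. In particular this is so for the words whose reduced form has no syllable of exponent `1` or `-1`.
-/

set_option autoImplicit false

namespace Pool.Agent.Results.MP_a1ec0a_al.ShortZigzags

open Pool.Agent.K7.H20.AW Pool.Agent.L7h63.AP

theorem result {S : Type*} [Finite S] [DecidableEq S] (M : CoxeterMatrix S) (w : List (S × ℤ))
    (h : ∀ s t : S, s ≠ t → M s t ≠ 2 → M s t ≠ 0 →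
      ((reduce M w).filter fun p => decide (p.1 = s ∨ p.1 = t)).length < M s t ∨
      ∀ (P v : List (S × ℤ)) (n : ℕ), reduce M w = P ++ v → Zigzag M s t n v →
        2 * n + 3 ≤ M s t) :
    (value M w = 1 ↔ reduce M w = []) ∧
    ∀ T : Set S, value M w ∈ Subgroup.closure {g : ArtinGroup M | ∃ t ∈ T, g = PresentedGroup.of t} ↔
      ∀ p ∈ reduce M w, p.1 ∈ T := by
  classical
  have := Fintype.ofFinite S
  have hval : value M (reduce M w) = value M w := by
    have h1 : val M (reduce M w) = val M w := by
      have h2 := congrArg (qo (M := M)) (val_reduce (M := M) w)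
      rwa [qo_val, qo_val] at h2
    rw [← ofArt_val (reduce M w), h1, ofArt_val]
  have key : ∀ T : Set S,
      value M w ∈ Subgroup.closure {g : ArtinGroup M | ∃ t ∈ T, g = PresentedGroup.of t} ↔
        ∀ p ∈ reduce M w, p.1 ∈ T := by
    intro T
    rw [← hval]
    constructor
    · intro h1 p hp
      by_contra h2
      refine sq_main M p.1 (rd_reduce w) ?_ ⟨p, hp, rfl⟩ (Subgroup.closure_mono ?_ h1)
      · intro x y hxy h3
        by_cases h4 : M x y = 0
        · exact Or.inl (Or.inl h4)
        · rcases h x y hxy h3 h4 with h5 | h5
          · exact Or.inl (Or.inr h5)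
          · exact Or.inr h5
      · rintro _ ⟨t, ht, rfl⟩
        refine ⟨t, ?_, rfl⟩
        rintro rfl
        exact h2 ht
    · intro h1
      exact value_mem M h1
  refine ⟨?_, key⟩
  constructor
  · intro h1
    have h2 := (key ∅).1 (by rw [h1]; exact Subgroup.one_mem _)
    exact List.eq_nil_iff_forall_not_mem.2 fun p hp => h2 p hp
  · intro h1
    rw [← hval, h1]
    rfl

end Pool.Agent.Results.MP_a1ec0a_al.ShortZigzags
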